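import Pool.Agent.Helper951_sr.Final

/-!
MP_72d76c_lc, Q1: a full positive answer.

There are absolute constants `C, c > 0` and an exponent `e` such that for all `1 ≤ k ≤ n / 2` there are a real
`m × n` matrix `A` with `m ≤ c k log (n / k)` rows and a decoder `D`, which runs in at most `c n (log n) ^ e`
unit-cost operations on real numbers, with `‖D (A x) - x‖₂ ≤ (C / √k) σ_k(x)₁` for every `x`.

The decoder is a straight-line program. Its operations are: writing a real constant, the sum or the difference of two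
available values, the product of an available value with a real constant, and the selection
`if f ≤ g then p else q` among available values. There is no product of two computed values, no division, no
rounding and no indirect addressing. Everything this model does in `T` operations, a real random access machine does
in `O(T)` operations.
-/

namespace Pool.Agent.Results.MP_72d76c_lc.NearLinearL2L1

/-- `Op P f`: the value `f` (a real function of the measurement vector `y`) is obtained by ONE unit-cost operation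
from values in the set `P`. -/
inductive Op {m : ℕ} (P : Set ((Fin m → ℝ) → ℝ)) : ((Fin m → ℝ) → ℝ) → Prop
  /-- a real constant -/
  | const (c : ℝ) : Op P (fun _ => c)
  /-- the sum of two available values -/
  | add (f g : (Fin m → ℝ) → ℝ) (hf : f ∈ P) (hg : g ∈ P) : Op P (fun y => f y + g y)
  /-- the difference of two available values -/
  | sub (f g : (Fin m → ℝ) → ℝ) (hf : f ∈ P) (hg : g ∈ P) : Op P (fun y => f y - g y)
  /-- the product of an available value with a real constant -/
  | smul (c : ℝ) (f : (Fin m → ℝ) → ℝ) (hf : f ∈ P) : Op P (fun y => c * f y)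
  /-- comparison of two available values and selection of one of two available values -/
  | sel (f g p q : (Fin m → ℝ) → ℝ) (hf : f ∈ P) (hg : g ∈ P) (hp : p ∈ P) (hq : q ∈ P) :
      Op P (fun y => if f y ≤ g y then p y else q y)

/-- The values which are available after `t` steps of a computation with step values `v 0, v 1, ...`: the input
coordinates and `v 0, ..., v (t - 1)`. -/
def Avail {m : ℕ} (v : ℕ → (Fin m → ℝ) → ℝ) (t : ℕ) : Set ((Fin m → ℝ) → ℝ) :=
  {f | (∃ i, f = fun y => y i) ∨ ∃ s < t, f = v s}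

/-- `RunsIn T D`: there is a straight-line program with `T` unit-cost operations which computes the decoder `D`: each
step value is obtained by one operation from the values available before it, and at the end all coordinates of
`D y` are available. -/
def RunsIn {m n : ℕ} (T : ℕ) (D : (Fin m → ℝ) → (Fin n → ℝ)) : Prop :=
  ∃ v : ℕ → (Fin m → ℝ) → ℝ, (∀ t < T, Op (Avail v t) (v t)) ∧ ∀ j, (fun y => D y j) ∈ Avail v T

/-- `σ_k(x)₁`, the smallest `ℓ₁` distance of `x` from a vector with at most `k` nonzero coordinates. -/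
noncomputable def sigma {n : ℕ} (k : ℕ) (x : Fin n → ℝ) : ℝ :=
  sInf {r : ℝ | ∃ x' : Fin n → ℝ, (Finset.univ.filter (fun i => x' i ≠ 0)).card ≤ k ∧
    r = ∑ i, |x i - x' i|}

theorem op_mono {m : ℕ} {P P' : Set ((Fin m → ℝ) → ℝ)} {f : (Fin m → ℝ) → ℝ} (h : Op P f) (hP : P ⊆ P') :
    Op P' f := by
  cases h with
  | const c => exact Op.const c
  | add f g hf hg => exact Op.add f g (hP hf) (hP hg)
  | sub f g hf hg => exact Op.sub f g (hP hf) (hP hg)
  | smul c f hf => exact Op.smul c f (hP hf)
  | sel f g p q hf hg hp hq => exact Op.sel f g p q (hP hf) (hP hg) (hP hp) (hP hq)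

theorem op_of_instr {m : ℕ} {P : Set ((Fin m → ℝ) → ℝ)} {f : (Fin m → ℝ) → ℝ}
    (h : Helper951_sr.Instr P f) : Op P f := by
  cases h with
  | const c => exact Op.const c
  | add f g hf hg => exact Op.add f g hf hg
  | sub f g hf hg => exact Op.sub f g hf hg
  | smul c f hf => exact Op.smul c f hf
  | sel f g p q hf hg hp hq => exact Op.sel f g p q hf hg hp hq

theorem exists_steps {m : ℕ} {L : List ((Fin m → ℝ) → ℝ)}
    (h : Helper951_sr.SLP {f : (Fin m → ℝ) → ℝ | ∃ i, f = fun y => y i} L) :
    ∃ v : ℕ → (Fin m → ℝ) → ℝ, (∀ t < L.length, Op (Avail v t) (v t)) ∧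
      ∀ g ∈ L, ∃ s < L.length, g = v s := by
  induction h with
  | nil => exact ⟨fun _ _ => 0, by simp, by simp⟩
  | cons L f _ hf ih =>
    obtain ⟨v, h1, h2⟩ := ih
    refine ⟨fun t => if t < L.length then v t else f, ?_, ?_⟩
    · intro t ht
      rw [List.length_cons] at ht
      rcases Nat.lt_succ_iff_lt_or_eq.1 ht with ht' | ht'
      · have h3 := h1 t ht'
        simp only [ht', if_true]
        refine op_mono h3 ?_
        rintro g (hg | ⟨s, hs, rfl⟩)
        · exact Or.inl hg
        · exact Or.inr ⟨s, hs, (if_pos (hs.trans ht')).symm⟩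
      · subst ht'
        simp only [lt_irrefl, if_false]
        refine op_mono (op_of_instr hf) ?_
        rintro g (hg | hg)
        · exact Or.inl hg
        · obtain ⟨s, hs, rfl⟩ := h2 g hg
          exact Or.inr ⟨s, hs, (if_pos hs).symm⟩
    · intro g hg
      rcases List.mem_cons.1 hg with rfl | hg
      · exact ⟨L.length, by simp, by simp⟩
      · obtain ⟨s, hs, rfl⟩ := h2 g hg
        exact ⟨s, by rw [List.length_cons]; omega, (if_pos hs).symm⟩

theorem runsIn_of_comp {m n T : ℕ} {D : (Fin m → ℝ) → (Fin n → ℝ)}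
    (h : Helper951_sr.Comp T {f : (Fin m → ℝ) → ℝ | ∃ i, f = fun y => y i} {f | ∃ j, f = fun y => D y j}) :
    RunsIn T D := by
  obtain ⟨L, h1, h2, h3⟩ := h
  obtain ⟨v, h4, h5⟩ := exists_steps h1
  refine ⟨fun t => if t < L.length then v t else fun _ => 0, ?_, ?_⟩
  · intro t _
    by_cases ht : t < L.length
    · simp only [ht, if_true]
      refine op_mono (h4 t ht) ?_
      rintro g (hg | ⟨s, hs, rfl⟩)
      · exact Or.inl hg
      · exact Or.inr ⟨s, hs, (if_pos (hs.trans ht)).symm⟩
    · simp only [ht, if_false]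
      exact Op.const 0
  · intro j
    rcases h3 ⟨j, rfl⟩ with hg | hg
    · exact Or.inl hg
    · obtain ⟨s, hs, hsv⟩ := h5 _ hg
      exact Or.inr ⟨s, lt_of_lt_of_le hs h2, hsv.trans (if_pos hs).symm⟩

/-- **Answer to Q1 of MP_72d76c_lc: yes.** -/
theorem result : ∃ (C c : ℝ) (e : ℕ), 0 < C ∧ 0 < c ∧ ∀ n k : ℕ, 1 ≤ k → 2 * k ≤ n →
    ∃ (m T : ℕ) (A : Matrix (Fin m) (Fin n) ℝ) (D : (Fin m → ℝ) → (Fin n → ℝ)),
      (m : ℝ) ≤ c * (k * Real.log (n / k)) ∧
      (T : ℝ) ≤ c * (n * Real.log n ^ e) ∧
      RunsIn T D ∧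
      ∀ x : Fin n → ℝ,
        Real.sqrt (∑ i, (D (A.mulVec x) i - x i) ^ 2) ≤ C / Real.sqrt k * sigma k x := by
  obtain ⟨C, c, e, hC, hc, h⟩ := Helper951_sr.main_thm
  refine ⟨C, c, e, hC, hc, fun n k hk hkn => ?_⟩
  obtain ⟨m, T, A, D, h1, h2, h3, h4⟩ := h n k hk hkn
  refine ⟨m, T, Matrix.of A, D, h1, h2, runsIn_of_comp h3, fun x => ?_⟩
  have hk' : (0 : ℝ) < Real.sqrt k := Real.sqrt_pos.2 (by exact_mod_cast hk)
  have hA : (Matrix.of A).mulVec x = Helper951_sr.mv A x := by
    funext j
    rfl
  rw [hA]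
  have h5 : Real.sqrt (∑ i, (D (Helper951_sr.mv A x) i - x i) ^ 2) / (C / Real.sqrt k) ≤ sigma k x := by
    refine le_csInf ⟨_, 0, by simp, rfl⟩ ?_
    rintro r ⟨x', hx', rfl⟩
    rw [div_le_iff₀ (by positivity), mul_comm]
    exact h4 x x' hx'
  rw [div_le_iff₀ (by positivity), mul_comm] at h5
  exact h5

end Pool.Agent.Results.MP_72d76c_lc.NearLinearL2L1
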